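import Pool.Agent.K7.H12.UI.Defs

/-!
# Project UI, job EMB: many homomorphisms with prescribed values
-/

set_option autoImplicit false

namespace Pool.Agent.K7.H12.UI

theorem stEmb : StEmb := by
  classical
  intro X V _ _ F G E Y η Q M hη hQ hd hηQ hYY hYN hNN hE
  have := Fintype.ofFinite X
  have hq : ∀ x, x ∉ Y → ∃ q : Fin M → V, Function.Injective q ∧ ∀ i, q i ∈ Q x := by
    intro x hx
    obtain ⟨T, hT, hTc⟩ := Set.exists_subset_card_eq (hQ x hx)
    have hf : T.Finite := Set.toFinite _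
    have hc : Nat.card T = M := by rw [Nat.card_coe_set_eq, hTc]
    let e : T ≃ Fin M := (Finite.equivFinOfCardEq hc)
    exact ⟨fun i => (e.symm i : V), fun i j hij => e.symm.injective (Subtype.ext hij),
      fun i => hT (e.symm i).2⟩
  choose q hqi hqQ using hq
  let Φ : ({x : X // x ∉ Y} → Fin M) → X → V :=
    fun a x => if h : x ∈ Y then η x else q x h (a ⟨x, h⟩)
  have hΦY : ∀ a x, x ∈ Y → Φ a x = η x := fun a x hx => dif_pos hx
  have hΦN : ∀ a x (hx : x ∉ Y), Φ a x = q x hx (a ⟨x, hx⟩) := fun a x hx => dif_neg hx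
  have hΦQ : ∀ a x, x ∉ Y → Φ a x ∈ Q x := by
    intro a x hx
    rw [hΦN a x hx]
    exact hqQ x hx _
  have hmem : ∀ a, Φ a ∈ homs F G E := by
    intro a
    refine ⟨?_, ?_, hE _ (hΦY a) (hΦQ a)⟩
    · intro x y hxy
      by_contra hne
      by_cases hx : x ∈ Y <;> by_cases hy : y ∈ Y
      · rw [hΦY a x hx, hΦY a y hy] at hxy
        exact hne (hη hx hy hxy)
      · have h1 := hΦQ a y hy
        rw [← hxy, hΦY a x hx] at h1
        exact hηQ y x hy hx h1
      · have h1 := hΦQ a x hx
        rw [hxy, hΦY a y hy] at h1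
        exact hηQ x y hx hy h1
      · have h1 := hΦQ a x hx
        have h2 := hΦQ a y hy
        rw [← hxy] at h2
        exact Set.disjoint_left.1 (hd x y hx hy hne) h1 h2
    · intro x y hxy
      by_cases hx : x ∈ Y <;> by_cases hy : y ∈ Y
      · rw [hΦY a x hx, hΦY a y hy]
        exact hYY x y hxy hx hy
      · rw [hΦY a x hx]
        exact hYN x y hxy hx hy _ (hΦQ a y hy)
      · rw [hΦY a y hy]
        exact (hYN y x hxy.symm hy hx _ (hΦQ a x hx)).symm
      · exact hNN x y hxy hx hy _ (hΦQ a x hx) _ (hΦQ a y hy)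
  have hinj : Function.Injective (fun a => (⟨Φ a, hmem a⟩ : homs F G E)) := by
    intro a a' haa
    have h1 : Φ a = Φ a' := congrArg Subtype.val haa
    funext x
    have h2 := congrFun h1 x.1
    rw [hΦN a x.1 x.2, hΦN a' x.1 x.2] at h2
    exact hqi x.1 x.2 h2
  have hcard := Nat.card_le_card_of_injective _ hinj
  rw [Nat.card_coe_set_eq] at hcard
  refine le_trans (le_of_eq ?_) hcard
  rw [Nat.card_fun, Nat.card_eq_fintype_card, Nat.card_eq_fintype_card, Nat.card_eq_fintype_card,
    Fintype.card_fin, Fintype.card_subtype_compl, Fintype.card_coe]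

end Pool.Agent.K7.H12.UI
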