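import Mathlib

/-!
# The rooted degree
-/

set_option autoImplicit false

namespace Pool.Agent.K7.H12.UI

universe u v w

/-- The `(F)_r`-degree of the vertex `v` of `G`: the number of the subgraphs `H` of `G` (not necessarily
induced) such that some isomorphism of `F` to `H` maps `r` to `v`. -/
noncomputable def rootedDegree {X : Type u} {V : Type v} (F : SimpleGraph X) (r : X)
    (G : SimpleGraph V) (v : V) : ℕ :=
  {H : G.Subgraph | ∃ φ : F ≃g H.coe, ((φ r : H.verts) : V) = v}.ncard

end Pool.Agent.K7.H12.UI
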