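import Pool.Agent.K7.H12.UI.Conc
import Pool.Agent.K7.H12.UI.Deg

/-!
# Project UI: transport and the final theorem
-/

set_option autoImplicit false

namespace Pool.Agent.K7.H12.UI

universe u v w

section transport

variable {X : Type u} {Y : Type v} {V W : Type w}

/-- the transported subgraph -/
def subMap {G : SimpleGraph V} {G' : SimpleGraph W} (j : G ≃g G') : G.Subgraph ≃ G'.Subgraph where
  toFun H :=
    { verts := {w | j.symm w ∈ H.verts}
      Adj := fun a b => H.Adj (j.symm a) (j.symm b)
      adj_sub := fun {a b} h => by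
        have := H.adj_sub h
        rwa [← j.map_rel_iff, RelIso.apply_symm_apply, RelIso.apply_symm_apply] at this
      edge_vert := fun {a b} h => H.edge_vert h
      symm := ⟨fun a b h => h.symm⟩ }
  invFun H :=
    { verts := {w | j w ∈ H.verts}
      Adj := fun a b => H.Adj (j a) (j b)
      adj_sub := fun {a b} h => by
        have := H.adj_sub h
        rwa [j.map_rel_iff] at this
      edge_vert := fun {a b} h => H.edge_vert h
      symm := ⟨fun a b h => h.symm⟩ }
  left_inv H := by
    refine SimpleGraph.Subgraph.ext ?_ ?_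
    · ext w
      show j.symm (j w) ∈ H.verts ↔ w ∈ H.verts
      rw [RelIso.symm_apply_apply]
    · funext a b
      show H.Adj (j.symm (j a)) (j.symm (j b)) = H.Adj a b
      rw [RelIso.symm_apply_apply, RelIso.symm_apply_apply]
  right_inv H := by
    refine SimpleGraph.Subgraph.ext ?_ ?_
    · ext w
      show j (j.symm w) ∈ H.verts ↔ w ∈ H.verts
      rw [RelIso.apply_symm_apply]
    · funext a b
      show H.Adj (j (j.symm a)) (j (j.symm b)) = H.Adj a b
      rw [RelIso.apply_symm_apply, RelIso.apply_symm_apply]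

theorem iso_of {F : SimpleGraph X} {G : SimpleGraph V} {G' : SimpleGraph W} (j : G ≃g G')
    {H : G.Subgraph} {H' : G'.Subgraph} (hv : ∀ a, a ∈ H.verts ↔ j a ∈ H'.verts)
    (ha : ∀ a b, H.Adj a b ↔ H'.Adj (j a) (j b)) (r : X) (v : V)
    (h : ∃ φ : F ≃g H.coe, ((φ r : H.verts) : V) = v) :
    ∃ φ : F ≃g H'.coe, ((φ r : H'.verts) : W) = j v := by
  obtain ⟨φ, hφ⟩ := h
  refine ⟨{ toFun := fun x => ⟨j (φ x), (hv _).1 (φ x).2⟩
            invFun := fun y => φ.symm ⟨j.symm y, (hv _).2 (by
              rw [RelIso.apply_symm_apply]; exact y.2)⟩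
            left_inv := fun x => ?_
            right_inv := fun y => ?_
            map_rel_iff' := fun {x y} => ?_ }, ?_⟩
  · simp
  · apply Subtype.ext
    simp
  · show H'.Adj (j (φ x)) (j (φ y)) ↔ F.Adj x y
    rw [← ha, ← φ.map_rel_iff]
    exact Iff.rfl
  · show j ((φ r : H.verts) : V) = j v
    rw [hφ]

theorem rootedDegree_congr {F : SimpleGraph X} {G : SimpleGraph V} {G' : SimpleGraph W}
    (j : G ≃g G') (r : X) (v : V) : rootedDegree F r G v = rootedDegree F r G' (j v) := by
  unfold rootedDegree
  rw [← Set.ncard_image_of_injective _ (subMap j).injective]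
  congr 1
  ext H'
  constructor
  · rintro ⟨H, hH, rfl⟩
    refine iso_of j ?_ ?_ r v hH
    · intro a
      show a ∈ H.verts ↔ j.symm (j a) ∈ H.verts
      rw [RelIso.symm_apply_apply]
    · intro a b
      show H.Adj a b ↔ H.Adj (j.symm (j a)) (j.symm (j b))
      rw [RelIso.symm_apply_apply, RelIso.symm_apply_apply]
  · intro hH
    refine ⟨(subMap j).symm H', ?_, (subMap j).apply_symm_apply H'⟩
    have := iso_of (H := H') (H' := (subMap j).symm H') j.symm (F := F) ?_ ?_ r (j v) hH
    · rwa [RelIso.symm_apply_apply] at this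
    · intro a
      show a ∈ H'.verts ↔ j (j.symm a) ∈ H'.verts
      rw [RelIso.apply_symm_apply]
    · intro a b
      show H'.Adj a b ↔ H'.Adj (j (j.symm a)) (j (j.symm b))
      rw [RelIso.apply_symm_apply, RelIso.apply_symm_apply]

theorem rootedDegree_iso {F : SimpleGraph X} {F' : SimpleGraph Y} (i : F ≃g F')
    (G : SimpleGraph V) (r : X) (v : V) :
    rootedDegree F r G v = rootedDegree F' (i r) G v := by
  unfold rootedDegree
  congr 1
  ext H
  constructor
  · rintro ⟨φ, hφ⟩
    refine ⟨i.symm.trans φ, ?_⟩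
    show ((φ (i.symm (i r)) : H.verts) : V) = v
    rw [RelIso.symm_apply_apply]
    exact hφ
  · rintro ⟨φ, hφ⟩
    exact ⟨i.trans φ, hφ⟩

end transport

theorem rdeg_eq {X V : Type} (F : SimpleGraph X) (G : SimpleGraph V) (r : X) (v : V) :
    rdeg F G {r} v = rootedDegree F r G v := by
  unfold rdeg rootedDegree
  congr 1
  ext H
  simp

/-- there is a path with two edges that starts at `r`, if `F` is connected and not a star with the
centre `r` -/
theorem exists_path {X : Type} [Finite X] (F : SimpleGraph X) (r : X) (hF : F.Connected)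
    (h3 : 3 ≤ Nat.card X) (hr : F ≠ SimpleGraph.starGraph r) :
    ∃ y2 y3, F.Adj r y2 ∧ F.Adj y2 y3 ∧ r ≠ y3 := by
  classical
  by_contra hcon
  push Not at hcon
  -- every vertex is `r` or a neighbour of `r`
  have hall : ∀ x, x = r ∨ F.Adj r x := by
    intro x
    obtain ⟨p⟩ := hF.preconnected r x
    have key : ∀ (a b : X) (_ : F.Walk a b), (a = r ∨ F.Adj r a) → (b = r ∨ F.Adj r b) := by
      intro a b q
      induction q with
      | nil => exact id
      | cons h _ ih =>
        intro h1
        apply ih
        rcases h1 with h1 | h1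
        · subst h1
          exact Or.inr h
        · exact Or.inl (hcon _ _ h1 h).symm
    exact key r x p (Or.inl rfl)
  apply hr
  ext x y
  rw [SimpleGraph.starGraph_adj]
  constructor
  · intro h
    refine ⟨h.ne, ?_⟩
    by_contra hne
    push Not at hne
    rcases hall x with h1 | h1
    · exact hne.1 h1
    · exact hne.2 (hcon x y h1 h).symm
  · rintro ⟨hne, h | h⟩
    · subst h
      rcases hall y with h1 | h1
      · exact absurd h1.symm hne
      · exact h1
    · subst h
      rcases hall x with h1 | h1
      · exact absurd h1 hne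
      · exact h1.symm

/-- the final theorem -/
theorem final (hAut : StAut) (hPar : StPar) (hMain : StMain) {X : Type u} [Fintype X]
    (F : SimpleGraph X) (r : X) (hF : F.Connected) (h3 : 3 ≤ Fintype.card X)
    (hr : F ≠ SimpleGraph.starGraph r) :
    {n : ℕ | ∃ G : SimpleGraph (Fin n), Function.Injective (rootedDegree F r G)}.Infinite := by
  classical
  let e := Fintype.equivFin X
  let F' : SimpleGraph (Fin (Fintype.card X)) := F.map e.toEmbedding
  let i : F ≃g F' := SimpleGraph.Iso.map e F
  have hF' : F'.Connected := (SimpleGraph.Iso.connected_iff i).1 hF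
  have hr' : F' ≠ SimpleGraph.starGraph (i r) := by
    intro h
    apply hr
    have hk : ∀ a b, F'.Adj a b ↔ (SimpleGraph.starGraph (i r)).Adj a b := fun a b => by rw [← h]
    ext x y
    rw [← i.map_rel_iff, hk, SimpleGraph.starGraph_adj, SimpleGraph.starGraph_adj]
    simp
  obtain ⟨y2, y3, h12, h23, h13⟩ := exists_path F' (i r) hF' (by rw [Nat.card_fin]; exact h3) hr'
  obtain ⟨A, hA⟩ := hMain _ F' {i r} (i r) y2 y3 rfl h12 h23 h13
  rw [Set.infinite_iff_exists_gt]
  intro M
  obtain ⟨P, B, hok, hN⟩ := hPar A (M + 1)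
  have hinj := hA P B hok
  obtain ⟨c, hc0, hc⟩ := (hAut _ (Vt P) F' (gph P)).2 (i r)
  have hG : Function.Injective (rootedDegree F' (i r) (gph P)) := by
    intro v v' hvv
    apply hinj
    have h1 := hc v
    have h2 := hc v'
    rw [rdeg_eq] at h1 h2
    rw [hvv, ← h2] at h1
    have h3 : ∀ w : Vt P, homs F' (gph P) (fun φ => At {i r} w φ ∧ Av ∅ φ) =
        homs F' (gph P) (At {i r} w) := by
      intro w
      ext φ
      simp [homs, Av]
    unfold D mu
    rw [h3, h3, h1]
  haveI := Fintype.ofFinite (Vt P)
  let eV := Fintype.equivFin (Vt P)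
  let j : gph P ≃g (gph P).map eV.toEmbedding := SimpleGraph.Iso.map eV (gph P)
  refine ⟨Fintype.card (Vt P), ⟨(gph P).map eV.toEmbedding, ?_⟩, ?_⟩
  · intro a b hab
    have h1 : ∀ a, rootedDegree F r ((gph P).map eV.toEmbedding) a =
        rootedDegree F' (i r) (gph P) (j.symm a) := by
      intro a
      rw [rootedDegree_iso i, rootedDegree_congr j (i r) (j.symm a), RelIso.apply_symm_apply]
    rw [h1, h1] at hab
    exact j.symm.injective (hG hab)
  · rw [Nat.card_eq_fintype_card] at hN
    omega

end Pool.Agent.K7.H12.UI
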