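import Pool.Agent.K7.H12.UI.Conc

/-!
# Project UI: assembly of the comparisons
-/

set_option autoImplicit false

namespace Pool.Agent.K7.H12.UI

theorem Ok.mono {P : Par} {A A' B : ℕ} (ho : Ok P A B) (hA : A' ≤ A) : Ok P A' B where
  blk_lt := ho.blk_lt
  blk_mono := ho.blk_mono
  blk_card := ho.blk_card
  even := ho.even
  hr := hA.trans ho.hr
  hb := (Nat.mul_le_mul_right _ hA).trans ho.hb
  hB := (Nat.mul_le_mul_right _ (Nat.mul_le_mul_right _ hA)).trans ho.hB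

theorem col_mono {P : Par} (f : Vt P → ℝ)
    (hc : ∀ p q : Bk P, (p.1.1 : ℕ) = (q.1.1 : ℕ) → (p.1.2 : ℕ) + 1 = (q.1.2 : ℕ) →
      f (bk p) < f (bk q)) :
    ∀ (d : ℕ) (p q : Bk P), (p.1.1 : ℕ) = (q.1.1 : ℕ) → (p.1.2 : ℕ) + 1 + d = (q.1.2 : ℕ) →
      f (bk p) < f (bk q) := by
  intro d
  induction d with
  | zero => intro p q h1 h2; exact hc p q h1 (by omega)
  | succ d ih =>
    intro p q h1 h2
    have h3 : (q.1.2 : ℕ) - 1 < P.m := by have := q.1.2.2; omega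
    have h4 : ((q.1.1 : Fin (P.r + 1)) : ℕ) = 0 →
        P.m ≤ 2 * ((⟨(q.1.2 : ℕ) - 1, h3⟩ : Fin P.m) : ℕ) := by
      intro h0
      have := p.2 (by omega)
      show P.m ≤ 2 * ((q.1.2 : ℕ) - 1)
      omega
    have e1 := ih p ⟨(q.1.1, ⟨(q.1.2 : ℕ) - 1, h3⟩), h4⟩ h1 (by
      show (p.1.2 : ℕ) + 1 + d = (q.1.2 : ℕ) - 1
      omega)
    have e2 := hc ⟨(q.1.1, ⟨(q.1.2 : ℕ) - 1, h3⟩), h4⟩ q rfl (by
      show (q.1.2 : ℕ) - 1 + 1 = (q.1.2 : ℕ)
      omega)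
    exact e1.trans e2

theorem inj_of {P : Par} (f : Vt P → ℝ)
    (e1 : ∀ p q : Bk P, (p.1.1 : ℕ) < (q.1.1 : ℕ) → f (bk q) < f (bk p))
    (e2 : ∀ p q : Bk P, (p.1.1 : ℕ) = (q.1.1 : ℕ) → (p.1.2 : ℕ) + 1 = (q.1.2 : ℕ) →
      f (bk p) < f (bk q))
    (e3 : ∀ j j' : Fin P.m, j < j' → f (ww j') < f (ww j))
    (e4 : ∀ (c c' : Fin P.b) (l l' : Fin P.r), (l < l' ∨ (l = l' ∧ c' < c)) →
      f (tt c l) < f (tt c' l'))
    (e5 : ∀ (p : Bk P) (j : Fin P.m), f (ww j) < f (bk p))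
    (e6 : ∀ (c : Fin P.b) (l : Fin P.r) (j : Fin P.m), f (tt c l) < f (ww j)) :
    Function.Injective f := by
  intro v v' hD
  by_contra hvv
  rcases v with p | ⟨c, l⟩ | j <;> rcases v' with p' | ⟨c', l'⟩ | j'
  · -- bulk, bulk
    have hD' : f (bk p) = f (bk p') := hD
    rcases lt_trichotomy (p.1.1 : ℕ) (p'.1.1 : ℕ) with hi | hi | hi
    · exact absurd hD' (e1 p p' hi).ne'
    · rcases lt_trichotomy (p.1.2 : ℕ) (p'.1.2 : ℕ) with hj | hj | hj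
      · exact absurd hD' (col_mono f e2 ((p'.1.2 : ℕ) - p.1.2 - 1) p p' hi (by omega)).ne
      · have : p = p' := Subtype.ext (Prod.ext (Fin.ext hi) (Fin.ext hj))
        subst this; exact hvv rfl
      · exact absurd hD' (col_mono f e2 ((p.1.2 : ℕ) - p'.1.2 - 1) p' p hi.symm (by omega)).ne'
    · exact absurd hD' (e1 p' p hi).ne
  · -- bulk, t
    exact absurd hD ((e6 c' l' p.1.2).trans (e5 p p.1.2)).ne'
  · exact absurd hD (e5 p j').ne'
  · exact absurd hD ((e6 c l p'.1.2).trans (e5 p' p'.1.2)).ne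
  · -- t, t
    have hD' : f (tt c l) = f (tt c' l') := hD
    rcases lt_trichotomy l l' with hi | hi | hi
    · exact absurd hD' (e4 c c' l l' (Or.inl hi)).ne
    · subst hi
      rcases lt_trichotomy c c' with hj | hj | hj
      · exact absurd hD' (e4 c' c l l (Or.inr ⟨rfl, hj⟩)).ne'
      · subst hj; exact hvv rfl
      · exact absurd hD' (e4 c c' l l (Or.inr ⟨rfl, hj⟩)).ne
    · exact absurd hD' (e4 c' c l' l (Or.inl hi)).ne'
  · exact absurd hD (e6 c l j').ne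
  · exact absurd hD (e5 p' j).ne
  · exact absurd hD (e6 c' l' j).ne'
  · have hD' : f (ww j) = f (ww j') := hD
    rcases lt_trichotomy j j' with hj | hj | hj
    · exact absurd hD' (e3 j j' hj).ne'
    · subst hj; exact hvv rfl
    · exact absurd hD' (e3 j' j hj).ne

theorem main (hRow : StRow) (hCol : StCol) (hW : StW) (hT : StT) (hWB : StWB) (hTW : StTW) :
    StMain := by
  intro X _ F R y1 y2 y3 h1 h12 h23 h13
  have hR : ∃ x ∈ R, ∃ y, F.Adj x y := ⟨y1, h1, y2, h12⟩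
  obtain ⟨A1, a1⟩ := hRow X F R hR
  obtain ⟨A2, a2⟩ := hCol X F R y1 y2 y3 h1 h12 h23 h13
  obtain ⟨A3, a3⟩ := hW X F R hR
  obtain ⟨A4, a4⟩ := hT X F R hR
  obtain ⟨A5, a5⟩ := hWB X F R hR
  obtain ⟨A6, a6⟩ := hTW X F R hR
  refine ⟨A1 + A2 + A3 + A4 + A5 + A6, fun P B hok => ?_⟩
  exact inj_of (D F (gph P) R ∅) (a1 P B (hok.mono (by omega))) (a2 P B (hok.mono (by omega)))
    (a3 P B (hok.mono (by omega))) (a4 P B (hok.mono (by omega))) (a5 P B (hok.mono (by omega)))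
    (a6 P B (hok.mono (by omega)))

end Pool.Agent.K7.H12.UI
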