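import Pool.Agent.K7.H12.UI.Conc

/-!
# Project UI, job PAR: there are parameters
-/

set_option autoImplicit false

namespace Pool.Agent.K7.H12.UI

/-- the first column of the block `c` -/
def SS (B c : ℕ) : ℕ := ∑ i ∈ Finset.range c, (B + i)

theorem SS_succ (B c : ℕ) : SS B (c + 1) = SS B c + (B + c) := Finset.sum_range_succ _ _

theorem SS_zero (B : ℕ) : SS B 0 = 0 := rfl

theorem SS_mono (B : ℕ) : Monotone (SS B) :=
  monotone_nat_of_le_succ fun c => by rw [SS_succ]; omega

theorem SS_even (B t : ℕ) : Even (SS B (4 * t)) := by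
  induction t with
  | zero => exact ⟨0, rfl⟩
  | succ t ih =>
    have h : 4 * (t + 1) = 4 * t + 1 + 1 + 1 + 1 := by ring
    rw [h, SS_succ, SS_succ, SS_succ, SS_succ]
    obtain ⟨r, hr⟩ := ih
    exact ⟨r + 2 * B + 8 * t + 3, by omega⟩

theorem SS_ge (B b : ℕ) (hb : 1 ≤ b) : B ≤ SS B b := by
  have h := SS_mono B hb
  have h1 : SS B 1 = B := by
    rw [show (1 : ℕ) = 0 + 1 from rfl, SS_succ, SS_zero]; omega
  omega

open Classical in
/-- the block of a column -/
noncomputable def bl (B b j : ℕ) : ℕ := Nat.findGreatest (fun c => SS B c ≤ j) b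

theorem bl_spec (B b j : ℕ) (hj : j < SS B b) : SS B (bl B b j) ≤ j ∧ j < SS B (bl B b j + 1) ∧
    bl B b j < b := by
  classical
  have h1 : SS B (bl B b j) ≤ j := by
    have := Nat.findGreatest_spec (P := fun c => SS B c ≤ j) (n := b) (Nat.zero_le b)
      (by rw [SS_zero]; omega)
    exact this
  have h2 : bl B b j < b := by
    have h := Nat.findGreatest_le (P := fun c => SS B c ≤ j) b
    rcases Nat.lt_or_ge (bl B b j) b with h' | h'
    · exact h'
    · exfalso
      have : SS B b ≤ SS B (bl B b j) := SS_mono B h'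
      omega
  refine ⟨h1, ?_, h2⟩
  by_contra hcon
  push Not at hcon
  exact Nat.findGreatest_is_greatest (P := fun c => SS B c ≤ j) (k := bl B b j + 1) (n := b)
    (Nat.lt_succ_self _) h2 hcon

theorem bl_eq (B b j c : ℕ) (hj : j < SS B b) (h1 : SS B c ≤ j) (h2 : j < SS B (c + 1)) :
    bl B b j = c := by
  obtain ⟨e1, e2, e3⟩ := bl_spec B b j hj
  rcases Nat.lt_trichotomy (bl B b j) c with h | h | h
  · have := SS_mono B (show bl B b j + 1 ≤ c from h)
    omega
  · exact h
  · have := SS_mono B (show c + 1 ≤ bl B b j from h)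
    omega

theorem stPar : StPar := by
  classical
  intro A N
  let r : ℕ := A + 1
  let b : ℕ := 4 * (A * r ^ 2 + 1)
  let B : ℕ := A * r * b + N + 1
  let P : Par := ⟨r, SS B b, b, bl B b⟩
  refine ⟨P, B, ?_, ?_⟩
  · refine ⟨?_, ?_, ?_, ?_, ?_, ?_, ?_⟩
    · intro j hj
      exact (bl_spec B b j hj).2.2
    · intro j hj
      have hj' : j < SS B b := lt_trans (Nat.lt_succ_self j) hj
      obtain ⟨e1, e2, e3⟩ := bl_spec B b j hj'
      rcases Nat.lt_or_ge (j + 1) (SS B (bl B b j + 1)) with h | h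
      · left
        exact bl_eq B b (j + 1) (bl B b j) hj (le_trans e1 (Nat.le_succ j)) h
      · right
        refine bl_eq B b (j + 1) _ hj h ?_
        rw [SS_succ B (bl B b j + 1)]
        omega
    · intro c hc
      have hset : {j : ℕ | j < SS B b ∧ bl B b j = c} = ↑(Finset.Ico (SS B c) (SS B (c + 1))) := by
        ext j
        rw [Finset.coe_Ico, Set.mem_Ico]
        constructor
        · rintro ⟨h1, rfl⟩
          obtain ⟨e1, e2, _⟩ := bl_spec B b j h1
          exact ⟨e1, e2⟩
        · rintro ⟨h1, h2⟩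
          have h4 : j < SS B b := lt_of_lt_of_le h2 (SS_mono B hc)
          exact ⟨h4, bl_eq B b j c h4 h1 h2⟩
      show {j : ℕ | j < SS B b ∧ bl B b j = c}.ncard = B + c
      rw [hset, Set.ncard_coe_finset, Nat.card_Ico, SS_succ]
      omega
    · exact SS_even B _
    · exact Nat.le_succ A
    · show A * r ^ 2 ≤ 4 * (A * r ^ 2 + 1)
      omega
    · show A * r * b ≤ A * r * b + N + 1
      omega
  · have hinj : Function.Injective (fun j : Fin P.m => (ww j : Vt P)) := by
      intro j j' hjj
      exact Sum.inr.inj (Sum.inr.inj hjj)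
    have h1 := Nat.card_le_card_of_injective _ hinj
    rw [Nat.card_fin] at h1
    have h2 : B ≤ SS B b := SS_ge B b (by show 1 ≤ 4 * (A * r ^ 2 + 1); omega)
    have h3' : P.m = SS B b := rfl
    have h4 : N ≤ B := by show N ≤ A * r * b + N + 1; omega
    omega

end Pool.Agent.K7.H12.UI
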