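import Pool.Agent.K7.H12.UI.Defs

/-!
# Project UI: job UB (port of the file of helper88)
-/

set_option autoImplicit false

namespace Pool.Agent.K7.H12.UI



variable {X V : Type} [Finite X] [Finite V]

theorem count_g (A : Finset V) (g : A → X) (hg : Function.Injective g) :
    {φ : X → V | ∀ a : A, φ (g a) = a}.ncard ≤ (Nat.card V) ^ (Nat.card X - A.card) := by
  classical
  have h1 : Nat.card {x : X // x ∉ Set.range g} = Nat.card X - A.card := by
    have h2 := Set.ncard_add_ncard_compl (Set.range g)
    have h3 : (Set.range g).ncard = A.card := by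
      rw [← Nat.card_coe_set_eq, Nat.card_range_of_injective hg]
      simp
    have h4 : Nat.card {x : X // x ∉ Set.range g} = (Set.range g)ᶜ.ncard := by
      rw [← Nat.card_coe_set_eq]
      rfl
    omega
  rw [← h1, ← Nat.card_fun, ← Nat.card_coe_set_eq]
  refine Nat.card_le_card_of_injective
    (fun (φ : {φ : X → V | ∀ a : A, φ (g a) = a}) (x : {x : X // x ∉ Set.range g}) => φ.1 x.1) ?_
  intro φ ψ h
  refine Subtype.ext (funext fun x => ?_)
  by_cases hx : x ∈ Set.range g
  · obtain ⟨a, rfl⟩ := hx
    rw [φ.2 a, ψ.2 a]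
  · exact congrFun h ⟨x, hx⟩

theorem ncard_homs_le (F : SimpleGraph X) (G : SimpleGraph V) (E : (X → V) → Prop)
    (A : Finset V) (hE : ∀ φ, Function.Injective φ → E φ → ∀ a ∈ A, a ∈ Set.range φ) :
    (homs F G E).ncard ≤ (Nat.card X) ^ A.card * (Nat.card V) ^ (Nat.card X - A.card) := by
  classical
  haveI := Fintype.ofFinite X
  haveI := Fintype.ofFinite V
  have hsub : homs F G E ⊆ ⋃ g ∈ (Finset.univ : Finset (A → X)),
      {φ : X → V | Function.Injective g ∧ ∀ a : A, φ (g a) = a} := by
    intro φ hφ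
    have h1 : ∀ a : A, ∃ x, φ x = a := fun a => hE φ hφ.1 hφ.2.2 a.1 a.2
    choose g hg using h1
    refine Set.mem_iUnion₂.2 ⟨g, Finset.mem_univ _, ?_, hg⟩
    intro a b hab
    have := hg a
    rw [hab, hg b] at this
    exact Subtype.ext this.symm
  calc (homs F G E).ncard ≤ (⋃ g ∈ (Finset.univ : Finset (A → X)),
      {φ : X → V | Function.Injective g ∧ ∀ a : A, φ (g a) = a}).ncard :=
        Set.ncard_le_ncard hsub (Set.toFinite _)
    _ ≤ ∑ g ∈ (Finset.univ : Finset (A → X)),
      {φ : X → V | Function.Injective g ∧ ∀ a : A, φ (g a) = a}.ncard :=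
        Finset.set_ncard_biUnion_le _ _
    _ ≤ ∑ _g ∈ (Finset.univ : Finset (A → X)), (Nat.card V) ^ (Nat.card X - A.card) := by
        refine Finset.sum_le_sum fun g _ => ?_
        by_cases hg : Function.Injective g
        · have : {φ : X → V | Function.Injective g ∧ ∀ a : A, φ (g a) = a} =
              {φ : X → V | ∀ a : A, φ (g a) = a} := by
            ext φ; simp [hg]
          rw [this]
          exact count_g A g hg
        · have : {φ : X → V | Function.Injective g ∧ ∀ a : A, φ (g a) = a} = ∅ := by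
            ext φ; simp [hg]
          rw [this]
          simp
    _ = (Nat.card X) ^ A.card * (Nat.card V) ^ (Nat.card X - A.card) := by
        rw [Finset.sum_const, Finset.card_univ, smul_eq_mul, Fintype.card_fun]
        simp [Nat.card_eq_fintype_card]

theorem stUB : StUB := by
  intro X V _ _ _ F G E A
  have key : ∀ (E : (X → V) → Prop) (A : Finset V),
      (∀ φ, Function.Injective φ → E φ → ∀ a ∈ A, a ∈ Set.range φ) →
      mu F G E ≤ err X V A.card := by
    intro E A hE
    have hn : (0 : ℝ) < Nat.card V := by exact_mod_cast Nat.card_pos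
    by_cases hq : A.card ≤ Nat.card X
    · have h1 := ncard_homs_le F G E A hE
      unfold mu err
      rw [div_pow, div_le_div_iff₀ (pow_pos hn _) (pow_pos hn _)]
      have h2 : (Nat.card V : ℝ) ^ (Nat.card X) =
          (Nat.card V : ℝ) ^ (Nat.card X - A.card) * (Nat.card V : ℝ) ^ A.card := by
        rw [← pow_add, Nat.sub_add_cancel hq]
      rw [h2, ← mul_assoc]
      refine mul_le_mul_of_nonneg_right ?_ (pow_pos hn _).le
      exact_mod_cast h1
    · have h0 : homs F G E = ∅ := by
        ext φ
        simp only [Set.mem_empty_iff_false, iff_false]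
        intro hφ
        apply hq
        have h1 : (A : Set V) ⊆ Set.range φ := fun a ha => hE φ hφ.1 hφ.2.2 a ha
        have h2 := Set.ncard_le_ncard h1 (Set.toFinite _)
        rw [Set.ncard_coe_finset] at h2
        refine h2.trans ?_
        rw [← Nat.card_coe_set_eq, Nat.card_range_of_injective hφ.1]
      unfold mu err
      rw [h0]
      simp only [Set.ncard_empty, Nat.cast_zero, zero_div]
      positivity
  refine ⟨key E A, ?_⟩
  intro S hS
  classical
  haveI := Fintype.ofFinite V
  have hn : (0 : ℝ) < Nat.card V := by exact_mod_cast Nat.card_pos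
  have hsub : homs F G E ⊆ ⋃ c ∈ S.toFinset,
      homs F G (fun φ => E φ ∧ c ∉ A ∧ c ∈ Set.range φ) := by
    intro φ hφ
    obtain ⟨h1, c, hc, hcA, hcφ⟩ := hS φ hφ.1 hφ.2.2
    exact Set.mem_iUnion₂.2 ⟨c, Set.mem_toFinset.2 hc, hφ.1, hφ.2.1, hφ.2.2, hcA, hcφ⟩
  have h1 : mu F G E ≤ ∑ c ∈ S.toFinset, mu F G (fun φ => E φ ∧ c ∉ A ∧ c ∈ Set.range φ) := by
    unfold mu
    rw [← Finset.sum_div]
    refine div_le_div_of_nonneg_right ?_ (by positivity)
    have h2 := Set.ncard_le_ncard hsub (Set.toFinite _)
    have h3 := h2.trans (Finset.set_ncard_biUnion_le _ _)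
    exact_mod_cast h3
  refine h1.trans ?_
  have h2 : ∀ c ∈ S.toFinset, mu F G (fun φ => E φ ∧ c ∉ A ∧ c ∈ Set.range φ) ≤
      err X V (A.card + 1) := by
    intro c _
    by_cases hc : c ∈ A
    · have h0 : homs F G (fun φ => E φ ∧ c ∉ A ∧ c ∈ Set.range φ) = ∅ := by
        ext φ
        simp only [Set.mem_empty_iff_false, iff_false]
        intro hφ
        exact hφ.2.2.2.1 hc
      unfold mu err
      rw [h0]
      simp only [Set.ncard_empty, Nat.cast_zero, zero_div]
      positivity
    · have h3 := key (fun φ => E φ ∧ c ∉ A ∧ c ∈ Set.range φ) (insert c A) (by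
        intro φ hφ hE' a ha
        rcases Finset.mem_insert.1 ha with rfl | ha
        · exact hE'.2.2
        · exact (hS φ hφ hE'.1).1 a ha)
      rwa [Finset.card_insert_of_notMem hc] at h3
  refine (Finset.sum_le_sum h2).trans ?_
  rw [Finset.sum_const, nsmul_eq_mul, Set.ncard_eq_toFinset_card']

end Pool.Agent.K7.H12.UI
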