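import Pool.Agent.K7.H12.UI.Aut
import Pool.Agent.K7.H12.UI.Emb
import Pool.Agent.K7.H12.UI.Par
import Pool.Agent.K7.H12.UI.UB
import Pool.Agent.K7.H12.UI.Main
import Pool.Agent.K7.H12.UI.Fin
import Pool.Agent.K7.H7.UI.Chain
import Pool.Agent.K7.H7.UI.WB
import Pool.Agent.K7.H20.UI.Both
import Pool.Agent.K7.H31.UI.LB
import Pool.Agent.K7.H41.UI.Size
import Pool.Agent.K7.H42.UI.Split
import Pool.Agent.K7.H42.UI.Row
import Pool.Agent.K7.H47.UI.Move
import Pool.Agent.K7.H47.UI.TW
import Pool.Agent.K7.H53.UI.SL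
import Pool.Agent.K7.H53.UI.TW
import Pool.Agent.K7.H62.UI.Col
import Pool.Agent.K7.H81.UI.Diff

/-!
# Project UI: everything together
-/

set_option autoImplicit false

namespace Pool.Agent.K7.H12.UI

theorem stDiff : StDiff := Pool.Agent.K7.H81.UI.stDiff

theorem stChain : StChain := Pool.Agent.K7.H7.UI.chain stUB

theorem stSplit : StSplit := Pool.Agent.K7.H42.UI.split stUB

theorem stBoth1 : StBoth1 := Pool.Agent.K7.H81.UI.stBoth1 stUB

theorem stBoth2 : StBoth2 := Pool.Agent.K7.H20.UI.both2 stUB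

theorem stMove : StMove := Pool.Agent.K7.H47.UI.move stDiff stBoth1 stChain stSplit

theorem stSL : StSL := Pool.Agent.K7.H53.UI.sl stUB stChain stSplit

theorem stSize : StSize := Pool.Agent.K7.H41.UI.size

theorem stMain : StMain := by
  have stLB1 : StLB1 := Pool.Agent.K7.H31.UI.lb1 stEmb stSize
  have stLB2 : StLB2 := Pool.Agent.K7.H31.UI.lb2 stEmb stSize
  have stRow : StRow := Pool.Agent.K7.H42.UI.row stDiff stBoth1 stChain stSplit stLB1 stSize
  have stT : StT := Pool.Agent.K7.H47.UI.stT stMove stLB1 stSize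
  have stW : StW := Pool.Agent.K7.H47.UI.stW stMove stLB1 stSize
  have stWB : StWB := Pool.Agent.K7.H7.UI.wb stMove stLB1 stSize stW
  have stTW : StTW := Pool.Agent.K7.H53.UI.tw stDiff stUB stSplit stLB1 stSize
  have stCol : StCol := Pool.Agent.K7.H62.UI.col stDiff stBoth2 stSplit stSL stLB2 stSize
  exact main stRow stCol stW stT stWB stTW

universe u

/-- Let `F` be a connected graph with at least three vertices and `r` a vertex of `F` such that `F` is
not the star with the centre `r`.  Then there are `(F)_r`-irregular graphs of infinitely many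
orders. -/
theorem all {X : Type u} [Fintype X] (F : SimpleGraph X) (r : X) (hF : F.Connected)
    (h3 : 3 ≤ Fintype.card X) (hr : F ≠ SimpleGraph.starGraph r) :
    {n : ℕ | ∃ G : SimpleGraph (Fin n), ∀ u v : Fin n, u ≠ v →
      rootedDegree F r G u ≠ rootedDegree F r G v}.Infinite := by
  have h := final stAut stPar stMain F r hF h3 hr
  refine h.mono ?_
  rintro n ⟨G, hG⟩
  exact ⟨G, fun a b hab hd => hab (hG hd)⟩

end Pool.Agent.K7.H12.UI
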