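import Pool.Agent.K7.H12.UI.Defs

/-!
# Project UI, job AUT: injective homomorphisms and subgraphs
-/

set_option autoImplicit false

namespace Pool.Agent.K7.H12.UI

/-- the subgraph given by a homomorphism -/
def imgSub {X V : Type} (F : SimpleGraph X) (G : SimpleGraph V) (φ : X → V)
    (h : ∀ x y, F.Adj x y → G.Adj (φ x) (φ y)) : G.Subgraph where
  verts := Set.range φ
  Adj a b := ∃ x y, F.Adj x y ∧ φ x = a ∧ φ y = b
  adj_sub := by
    rintro a b ⟨x, y, hxy, rfl, rfl⟩
    exact h x y hxy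
  edge_vert := by
    rintro a b ⟨x, y, hxy, rfl, rfl⟩
    exact ⟨x, rfl⟩
  symm := ⟨by
    rintro a b ⟨x, y, hxy, rfl, rfl⟩
    exact ⟨y, x, hxy.symm, rfl, rfl⟩⟩

/-- general count: `S` is a set of roots such that any two isomorphisms of `F` to a copy that map an
element of `S` to `v` differ by an automorphism in the group `Γ` -/
theorem aut_count {X V : Type} [Finite X] [Finite V] (F : SimpleGraph X) (G : SimpleGraph V)
    (R : Set X) (Γ : Set (F ≃g F))
    (h1 : ∀ σ ∈ Γ, ∀ x ∈ R, σ.symm x ∈ R)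
    (h2 : ∀ σ : F ≃g F, ∀ x ∈ R, σ x ∈ R → σ ∈ Γ) (v : V) :
    (homs F G (At R v)).ncard = Nat.card Γ * rdeg F G R v := by
  classical
  unfold rdeg
  rw [← Nat.card_coe_set_eq, ← Nat.card_coe_set_eq, ← Nat.card_prod]
  symm
  -- the chosen isomorphism
  let e : ∀ H : {H : G.Subgraph | ∃ e : F ≃g H.coe, ∃ x ∈ R, ((e x : H.verts) : V) = v},
    F ≃g H.1.coe := fun H => H.2.choose
  have he : ∀ H : {H : G.Subgraph | ∃ e : F ≃g H.coe, ∃ x ∈ R, ((e x : H.verts) : V) = v},
    ∃ x ∈ R, ((e H x : H.1.verts) : V) = v := fun H => H.2.choose_spec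
  have key : ∀ (σ : Γ) (H : {H : G.Subgraph | ∃ e : F ≃g H.coe, ∃ x ∈ R,
      ((e x : H.verts) : V) = v}),
      (fun x => ((e H (σ.1 x) : H.1.verts) : V)) ∈ homs F G (At R v) := by
    intro σ H
    refine ⟨fun x y hxy => σ.1.injective ((e H).injective (Subtype.ext hxy)), ?_, ?_⟩
    · intro x y hxy
      exact H.1.adj_sub ((e H).map_rel_iff.2 (σ.1.map_rel_iff.2 hxy))
    · obtain ⟨x, hx, hxv⟩ := he H
      refine ⟨σ.1.symm x, h1 σ.1 σ.2 x hx, ?_⟩
      show ((e H (σ.1 (σ.1.symm x)) : H.1.verts) : V) = v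
      rw [RelIso.apply_symm_apply]
      exact hxv
  have hsub : ∀ (σ : Γ) (H : {H : G.Subgraph | ∃ e : F ≃g H.coe, ∃ x ∈ R,
      ((e x : H.verts) : V) = v}),
      H.1 = imgSub F G (fun x => ((e H (σ.1 x) : H.1.verts) : V)) (key σ H).2.1 := by
    intro σ H
    refine SimpleGraph.Subgraph.ext ?_ ?_
    · ext w
      constructor
      · intro hw
        refine ⟨σ.1.symm ((e H).symm ⟨w, hw⟩), ?_⟩
        show ((e H (σ.1 (σ.1.symm ((e H).symm ⟨w, hw⟩))) : H.1.verts) : V) = w
        rw [RelIso.apply_symm_apply, RelIso.apply_symm_apply]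
      · rintro ⟨x, rfl⟩
        exact (e H (σ.1 x)).2
    · funext w w'
      refine propext ⟨?_, ?_⟩
      · intro hw
        have hv := H.1.edge_vert hw
        have hv' := H.1.edge_vert hw.symm
        refine ⟨σ.1.symm ((e H).symm ⟨w, hv⟩), σ.1.symm ((e H).symm ⟨w', hv'⟩), ?_, ?_, ?_⟩
        · rw [← σ.1.map_rel_iff, ← (e H).map_rel_iff]
          rw [RelIso.apply_symm_apply, RelIso.apply_symm_apply, RelIso.apply_symm_apply,
            RelIso.apply_symm_apply]
          exact hw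
        · show ((e H (σ.1 (σ.1.symm ((e H).symm ⟨w, hv⟩))) : H.1.verts) : V) = w
          rw [RelIso.apply_symm_apply, RelIso.apply_symm_apply]
        · show ((e H (σ.1 (σ.1.symm ((e H).symm ⟨w', hv'⟩))) : H.1.verts) : V) = w'
          rw [RelIso.apply_symm_apply, RelIso.apply_symm_apply]
      · rintro ⟨x, y, hxy, rfl, rfl⟩
        exact (e H).map_rel_iff.2 (σ.1.map_rel_iff.2 hxy)
  refine Nat.card_eq_of_bijective (fun q : Γ × {H : G.Subgraph | ∃ e : F ≃g H.coe, ∃ x ∈ R,
      ((e x : H.verts) : V) = v} => (⟨_, key q.1 q.2⟩ : homs F G (At R v))) ⟨?_, ?_⟩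
  · rintro ⟨σ, H⟩ ⟨σ', H'⟩ hq
    have e1 : (fun x => ((e H (σ.1 x) : H.1.verts) : V)) =
        (fun x => ((e H' (σ'.1 x) : H'.1.verts) : V)) := congrArg Subtype.val hq
    have e2 : H = H' := by
      apply Subtype.ext
      rw [hsub σ H, hsub σ' H']
      congr 1
    subst e2
    have e3 : σ = σ' := by
      apply Subtype.ext
      ext x
      exact (e H).injective (Subtype.ext (congrFun e1 x))
    rw [e3]
  · rintro ⟨φ, hinj, hhom, x0, hx0, hv⟩
    obtain ⟨i, hi⟩ : ∃ i : F ≃g (imgSub F G φ hhom).coe, ∀ x, ((i x : _) : V) = φ x :=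
      ⟨{ toEquiv := Equiv.ofInjective φ hinj
         map_rel_iff' := by
          intro x y
          constructor
          · rintro ⟨x', y', h, hx, hy⟩
            have hx' : φ x' = φ x := hx
            have hy' : φ y' = φ y := hy
            rwa [hinj hx', hinj hy'] at h
          · intro h
            exact ⟨x, y, h, rfl, rfl⟩ }, fun x => rfl⟩
    let H : {H : G.Subgraph | ∃ e : F ≃g H.coe, ∃ x ∈ R, ((e x : H.verts) : V) = v} :=
      ⟨imgSub F G φ hhom, i, x0, hx0, by rw [hi]; exact hv⟩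
    obtain ⟨x1, hx1, hx1v⟩ := he H
    let σ : F ≃g F := i.trans (e H).symm
    have hσ : ∀ x, ((e H (σ x) : H.1.verts) : V) = φ x := by
      intro x
      show ((e H ((e H).symm (i x)) : H.1.verts) : V) = φ x
      rw [RelIso.apply_symm_apply]
      exact hi x
    have hσ0 : σ x0 = x1 := by
      apply (e H).injective
      apply Subtype.ext
      rw [hσ, hx1v]
      exact hv
    refine ⟨(⟨σ, h2 σ x0 hx0 (hσ0 ▸ hx1)⟩, H), ?_⟩
    apply Subtype.ext
    funext x
    exact hσ x

theorem finite_aut {X : Type} [Finite X] (F : SimpleGraph X) : Finite (F ≃g F) :=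
  Finite.of_injective (fun σ : F ≃g F => (σ : X → X)) DFunLike.coe_injective

theorem stAut : StAut := by
  intro X V _ _ F G
  have hf := finite_aut F
  refine ⟨⟨Nat.card (Set.univ : Set (F ≃g F)), ?_, fun v => ?_⟩, fun r =>
    ⟨Nat.card {σ : F ≃g F | σ r = r}, ?_, fun v => ?_⟩⟩
  · have : Nonempty (Set.univ : Set (F ≃g F)) := ⟨⟨RelIso.refl _, trivial⟩⟩
    exact Nat.card_pos
  · exact aut_count F G Set.univ Set.univ (fun _ _ _ _ => trivial) (fun _ _ _ _ => trivial) v
  · have : Nonempty {σ : F ≃g F | σ r = r} := ⟨⟨RelIso.refl _, rfl⟩⟩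
    exact Nat.card_pos
  · refine aut_count F G {r} {σ : F ≃g F | σ r = r} ?_ ?_ v
    · rintro σ hσ x rfl
      show σ.symm x = x
      have h : σ x = x := hσ
      exact (RelIso.symm_apply_eq σ).2 h.symm
    · rintro σ x rfl hx
      exact hx

end Pool.Agent.K7.H12.UI
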