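import Pool.Agent.K7.H12.UI.Defs

/-!
# Project UI: the graph and the statements of the comparisons
-/

set_option autoImplicit false

namespace Pool.Agent.K7.H12.UI

/-- the labels: the bulk `(i, j)` (row `i`, column `j`), the row hubs `(c, l)` (block `c`, level `l`),
the column hubs `j` -/
inductive Lab where
  | bulk (i j : ℕ)
  | t (c l : ℕ)
  | w (j : ℕ)
  deriving DecidableEq

/-- the parameters: the rows of the bulk are `0, ..., r` (row `0` is only half), `r` is the number of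
the levels of the row hubs, `m` the number of the columns, `b` the number of the blocks, `blk j` the
block of the column `j` -/
structure Par where
  r : ℕ
  m : ℕ
  b : ℕ
  blk : ℕ → ℕ

/-- missing pairs of labels -/
def Mis (P : Par) : Lab → Lab → Prop
  | .bulk _ _, .bulk _ _ => False
  | .bulk i j, .t c l => P.blk j = c ∧ l < i
  | .t c l, .bulk i j => P.blk j = c ∧ l < i
  | .bulk _ j, .w j' => j = j'
  | .w j', .bulk _ j => j = j'
  | .t _ _, .t _ _ => False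
  | .t _ _, .w _ => True
  | .w _, .t _ _ => True
  | .w j, .w j' => P.m < j + j' + 2

theorem Mis.symm {P : Par} {a b : Lab} (h : Mis P a b) : Mis P b a := by
  cases a <;> cases b <;> simp only [Mis] at h ⊢ <;> first | exact h | omega

/-- the indices of the bulk: rows `1, ..., r` are full, row `0` consists of the columns `j ≥ m / 2` -/
abbrev Bk (P : Par) : Type :=
  {p : Fin (P.r + 1) × Fin P.m // (p.1 : ℕ) = 0 → P.m ≤ 2 * (p.2 : ℕ)}

/-- the vertices -/
abbrev Vt (P : Par) : Type := Bk P ⊕ ((Fin P.b × Fin P.r) ⊕ Fin P.m)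

/-- bulk vertices -/
def bk {P : Par} (p : Bk P) : Vt P := Sum.inl p

/-- row hubs -/
def tt {P : Par} (c : Fin P.b) (l : Fin P.r) : Vt P := Sum.inr (Sum.inl (c, l))

/-- column hubs -/
def ww {P : Par} (j : Fin P.m) : Vt P := Sum.inr (Sum.inr j)

/-- the label -/
def lab {P : Par} : Vt P → Lab
  | Sum.inl p => .bulk p.1.1 p.1.2
  | Sum.inr (Sum.inl (c, l)) => .t c l
  | Sum.inr (Sum.inr j) => .w j

/-- the graph -/
def gph (P : Par) : SimpleGraph (Vt P) where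
  Adj a b := a ≠ b ∧ ¬ Mis P (lab a) (lab b)
  symm := ⟨fun _ _ h => ⟨h.1.symm, fun h' => h.2 h'.symm⟩⟩
  loopless := ⟨fun _ h => h.1 rfl⟩

/-- The conditions on the parameters; `A` is a large constant, `B` is the size of the first block. -/
structure Ok (P : Par) (A B : ℕ) : Prop where
  blk_lt : ∀ j, j < P.m → P.blk j < P.b
  blk_mono : ∀ j, j + 1 < P.m → P.blk (j + 1) = P.blk j ∨ P.blk (j + 1) = P.blk j + 1
  blk_card : ∀ c, c < P.b → {j : ℕ | j < P.m ∧ P.blk j = c}.ncard = B + c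
  even : Even P.m
  hr : A ≤ P.r
  hb : A * P.r ^ 2 ≤ P.b
  hB : A * P.r * P.b ≤ B

/-- comparison statements: for all large `A` -/
def Ev (S : Par → Prop) : Prop := ∃ A : ℕ, ∀ (P : Par) (B : ℕ), Ok P A B → S P

/-- JOB PAR: there are parameters -/
def StPar : Prop := ∀ A N : ℕ, ∃ (P : Par) (B : ℕ), Ok P A B ∧ N ≤ Nat.card (Vt P)

/-- JOB SIZE: sizes, and the sizes of the symmetric differences -/
def StSize : Prop := ∃ C : ℝ, 0 < C ∧ ∃ A : ℕ, ∀ (P : Par) (B : ℕ), Ok P A B →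
    0 < P.m ∧ 0 < Nat.card (Vt P) ∧ P.b * B ≤ P.m ∧
    (∀ c : ℕ, {j : ℕ | j < P.m ∧ P.blk j = c}.ncard ≤ 2 * B) ∧
    (Nat.card (Vt P) : ℝ) ≤ C * (P.r * P.m) ∧ ((P.r * P.m : ℕ) : ℝ) ≤ Nat.card (Vt P) ∧
    -- two bulk vertices
    (∀ p q : Bk P, ((sd (gph P) (bk p) (bk q)).ncard : ℝ) ≤ C * P.r) ∧
    -- two row hubs
    (∀ (c c' : Fin P.b) (l l' : Fin P.r),
      ((sd (gph P) (tt c l) (tt c' l')).ncard : ℝ) ≤ C * (P.r * B)) ∧
    -- two column hubs
    (∀ j j' : Fin P.m, ((sd (gph P) (ww j) (ww j')).ncard : ℝ) ≤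
      C * (P.r + |((j : ℕ) : ℝ) - ((j' : ℕ) : ℝ)|)) ∧
    -- a vertex misses few vertices
    (∀ v : Vt P, ({u | u ∉ nb (gph P) v}.ncard : ℝ) ≤ C * (P.m + P.r * B)) ∧
    -- so two vertices have a small symmetric difference
    (∀ v v' : Vt P, ((sd (gph P) v v').ncard : ℝ) ≤ C * (P.m + P.r * B)) ∧
    -- a vertex misses very few bulk vertices
    (∀ v : Vt P, ({u | (∃ p, u = bk p) ∧ u ∉ nb (gph P) v}.ncard : ℝ) ≤ C * (P.r * B))

/-- JOB LB1: gain of one neighbour, level one.  The neighbourhood `S` of `v` contains nearly all bulk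
vertices. -/
def StLB1 : Prop := ∀ (X : Type) [Finite X] (F : SimpleGraph X) (R : Set X),
  (∃ x ∈ R, ∃ y, F.Adj x y) → ∃ c : ℝ, 0 < c ∧ Ev (fun P => ∀ (Z : Set (Vt P)) (v v' u : Vt P)
    (S : Set (Vt P)), Z.ncard ≤ 2 → v ≠ v' → u ≠ v → u ≠ v' → v ∉ Z → u ∉ Z → u ∈ S →
    ({y : Vt P | (∃ p, y = bk p) ∧ y ∉ S}.ncard : ℝ) ≤ c * Nat.card (Vt P) →
    c * err X (Vt P) 2 ≤ mu F (upd (gph P) v S) (fun φ => E1 R Z v v' φ ∧ Uses F v u φ))

/-- JOB LB2: gain of one neighbour, level two: a path `v - z - u` of `G` over a path of `F` that starts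
at a root; `S` is the neighbourhood of `v`, `T` the one of `z` -/
def StLB2 : Prop := ∀ (X : Type) [Finite X] (F : SimpleGraph X) (R : Set X) (y1 y2 y3 : X),
  y1 ∈ R → F.Adj y1 y2 → F.Adj y2 y3 → y1 ≠ y3 → ∃ c : ℝ, 0 < c ∧
  Ev (fun P => ∀ (v v' z z' u : Vt P) (S T : Set (Vt P)), v ≠ v' → z ≠ z' → v ≠ z → v ≠ z' →
    v' ≠ z → u ≠ v → u ≠ v' → u ≠ z → u ≠ z' → z ∈ S → (F.Adj y1 y3 → u ∈ S) → v ∈ T → u ∈ T →
    ({y : Vt P | (∃ p, y = bk p) ∧ (y ∉ S ∨ y ∉ T)}.ncard : ℝ) ≤ c * Nat.card (Vt P) →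
    c * err X (Vt P) 3 ≤ mu F (upd (upd (gph P) v S) z T)
      (fun φ => (E1 R ∅ v v' φ ∧ z' ∉ Set.range φ ∧ Uses F v z φ) ∧ Uses F z u φ))

/-- comparison statements of the first level -/
def First (S : ∀ (X : Type), SimpleGraph X → Set X → Par → Prop) : Prop :=
  ∀ (X : Type) [Finite X] (F : SimpleGraph X) (R : Set X), (∃ x ∈ R, ∃ y, F.Adj x y) →
    Ev (S X F R)

/-- JOB ROW: rows of the bulk -/
def StRow : Prop := First (fun _ F R P => ∀ p q : Bk P, (p.1.1 : ℕ) < (q.1.1 : ℕ) →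
  D F (gph P) R ∅ (bk q) < D F (gph P) R ∅ (bk p))

/-- JOB W: column hubs -/
def StW : Prop := First (fun _ F R P => ∀ j j' : Fin P.m, j < j' →
  D F (gph P) R ∅ (ww j') < D F (gph P) R ∅ (ww j))

/-- JOB T: row hubs -/
def StT : Prop := First (fun _ F R P => ∀ (c c' : Fin P.b) (l l' : Fin P.r),
  (l < l' ∨ (l = l' ∧ c' < c)) → D F (gph P) R ∅ (tt c l) < D F (gph P) R ∅ (tt c' l'))

/-- JOB WB: column hubs and the bulk -/
def StWB : Prop := First (fun _ F R P => ∀ (p : Bk P) (j : Fin P.m),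
  D F (gph P) R ∅ (ww j) < D F (gph P) R ∅ (bk p))

/-- JOB TW: row hubs and column hubs -/
def StTW : Prop := First (fun _ F R P => ∀ (c : Fin P.b) (l : Fin P.r) (j : Fin P.m),
  D F (gph P) R ∅ (tt c l) < D F (gph P) R ∅ (ww j))

/-- JOB COL: consecutive columns of the bulk, a path of `F` with two edges starts at a root -/
def StCol : Prop := ∀ (X : Type) [Finite X] (F : SimpleGraph X) (R : Set X) (y1 y2 y3 : X),
  y1 ∈ R → F.Adj y1 y2 → F.Adj y2 y3 → y1 ≠ y3 →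
  Ev (fun P => ∀ p q : Bk P, (p.1.1 : ℕ) = (q.1.1 : ℕ) → (p.1.2 : ℕ) + 1 = (q.1.2 : ℕ) →
    D F (gph P) R ∅ (bk p) < D F (gph P) R ∅ (bk q))

/-- JOB MATCH: consecutive columns of the bulk, `F` has at least two edges and no path with two
edges; the order is the other way round -/
def StMatch : Prop := ∀ (X : Type) [Finite X] (F : SimpleGraph X),
  (∀ x y z, F.Adj x y → F.Adj x z → y = z) →
  (∃ x y x' y', F.Adj x y ∧ F.Adj x' y' ∧ x ≠ x' ∧ x ≠ y') →
  Ev (fun P => ∀ p q : Bk P, (p.1.1 : ℕ) = (q.1.1 : ℕ) → (p.1.2 : ℕ) + 1 = (q.1.2 : ℕ) →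
    D F (gph P) Set.univ ∅ (bk q) < D F (gph P) Set.univ ∅ (bk p))

/-- the main statement: the rooted degrees are different if a path of `F` with two edges starts at a
root -/
def StMain : Prop := ∀ (X : Type) [Finite X] (F : SimpleGraph X) (R : Set X) (y1 y2 y3 : X),
  y1 ∈ R → F.Adj y1 y2 → F.Adj y2 y3 → y1 ≠ y3 →
  Ev (fun P => Function.Injective (D F (gph P) R ∅))

/-- the main statement for matchings -/
def StMainMatch : Prop := ∀ (X : Type) [Finite X] (F : SimpleGraph X),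
  (∀ x y z, F.Adj x y → F.Adj x z → y = z) →
  (∃ x y x' y', F.Adj x y ∧ F.Adj x' y' ∧ x ≠ x' ∧ x ≠ y') →
  Ev (fun P => Function.Injective (D F (gph P) Set.univ ∅))

end Pool.Agent.K7.H12.UI
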