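import Mathlib

/-!
# Project UI: definitions and the statements of the general lemmas (undirected graphs)

`F`-irregular undirected graphs.  `R` is the set of the possible roots (`Set.univ` for the ordinary
`F`-degree, `{r}` for the rooted one), `Z` is a set of forbidden vertices (`∅` in nearly all uses).
-/

set_option autoImplicit false

namespace Pool.Agent.K7.H12.UI

/-- the injective homomorphisms of `F` to `G` with the property `E` -/
def homs {X V : Type} (F : SimpleGraph X) (G : SimpleGraph V) (E : (X → V) → Prop) :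
    Set (X → V) :=
  {φ | Function.Injective φ ∧ (∀ x y, F.Adj x y → G.Adj (φ x) (φ y)) ∧ E φ}

/-- their number divided by `n ^ k` -/
noncomputable def mu {X V : Type} (F : SimpleGraph X) (G : SimpleGraph V)
    (E : (X → V) → Prop) : ℝ :=
  ((homs F G E).ncard : ℝ) / (Nat.card V : ℝ) ^ (Nat.card X)

/-- `(k / n) ^ q` -/
noncomputable def err (X V : Type) (q : ℕ) : ℝ := ((Nat.card X : ℝ) / (Nat.card V : ℝ)) ^ q

/-- `v` is the image of a root -/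
def At {X V : Type} (R : Set X) (v : V) (φ : X → V) : Prop := ∃ x ∈ R, φ x = v

/-- `Z` is avoided -/
def Av {X V : Type} (Z : Set V) (φ : X → V) : Prop := ∀ z ∈ Z, z ∉ Set.range φ

/-- the normalised number of the injective homomorphisms with a root at `v` that avoid `Z` -/
noncomputable def D {X V : Type} (F : SimpleGraph X) (G : SimpleGraph V) (R : Set X) (Z : Set V)
    (v : V) : ℝ :=
  mu F G (fun φ => At R v φ ∧ Av Z φ)

/-- `φ` maps an edge of `F` to `a`, `b` -/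
def Uses {X V : Type} (F : SimpleGraph X) (a b : V) (φ : X → V) : Prop :=
  ∃ x y, F.Adj x y ∧ φ x = a ∧ φ y = b

/-- a root at `v`, and `v'` and `Z` are avoided -/
def E1 {X V : Type} (R : Set X) (Z : Set V) (v v' : V) (φ : X → V) : Prop :=
  At R v φ ∧ v' ∉ Set.range φ ∧ Av Z φ

/-- a root at `v`, contains `v'`, and `Z` is avoided -/
def E2 {X V : Type} (R : Set X) (Z : Set V) (v v' : V) (φ : X → V) : Prop :=
  At R v φ ∧ v' ∈ Set.range φ ∧ Av Z φ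

/-- the neighbourhood of `s` is replaced by `P` -/
def upd {V : Type} (G : SimpleGraph V) (s : V) (P : Set V) : SimpleGraph V where
  Adj a b := (a ≠ s ∧ b ≠ s ∧ G.Adj a b) ∨ (a = s ∧ b ≠ s ∧ b ∈ P) ∨ (b = s ∧ a ≠ s ∧ a ∈ P)
  symm := ⟨fun _ _ h => by
    rcases h with ⟨h1, h2, h3⟩ | h | h
    · exact Or.inl ⟨h2, h1, h3.symm⟩
    · exact Or.inr (Or.inr h)
    · exact Or.inr (Or.inl h)⟩
  loopless := ⟨fun a h => by
    rcases h with ⟨_, _, h⟩ | ⟨h1, h2, _⟩ | ⟨h1, h2, _⟩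
    · exact h.ne rfl
    · exact h2 h1
    · exact h2 h1⟩

/-- the neighbourhood -/
def nb {V : Type} (G : SimpleGraph V) (a : V) : Set V := {c | G.Adj a c}

/-- the symmetric difference of the neighbourhoods, outside of the two vertices -/
def sd {V : Type} (G : SimpleGraph V) (a b : V) : Set V :=
  {c | c ≠ a ∧ c ≠ b ∧ ¬ (G.Adj a c ↔ G.Adj b c)}

/-! ### General lemmas -/

/-- JOB UB: copies that contain all of `A` and some element of `S` outside `A` -/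
def StUB : Prop := ∀ (X V : Type) [Finite X] [Finite V] [Nonempty V] (F : SimpleGraph X)
  (G : SimpleGraph V) (E : (X → V) → Prop) (A : Finset V),
  ((∀ φ, Function.Injective φ → E φ → ∀ a ∈ A, a ∈ Set.range φ) → mu F G E ≤ err X V A.card) ∧
  (∀ S : Set V, (∀ φ, Function.Injective φ → E φ →
      (∀ a ∈ A, a ∈ Set.range φ) ∧ ∃ c ∈ S, c ∉ A ∧ c ∈ Set.range φ) →
    mu F G E ≤ S.ncard * err X V (A.card + 1))

/-- JOB DIFF: `D v - D v'`, and a bound for the part with both `v` and `v'` (it is zero if every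
vertex may be the root) -/
def StDiff : Prop := ∀ (X V : Type) [Finite X] [Finite V] (F : SimpleGraph X)
  (G : SimpleGraph V) (R : Set X) (Z : Set V) (v v' : V), v ≠ v' → v ∉ Z → v' ∉ Z →
  D F G R Z v - D F G R Z v' =
    (mu F (upd G v (nb G v)) (E1 R Z v v') - mu F (upd G v (nb G v')) (E1 R Z v v')) +
      (mu F G (E2 R Z v v') - mu F G (E2 R Z v' v)) ∧
  mu F G (E2 Set.univ Z v v') = mu F G (E2 Set.univ Z v' v)

/-- JOB BOTH1: the part with both `v` and `v'`, first bound: the transposition of `v` and `v'` -/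
def StBoth1 : Prop := ∀ (X V : Type) [Finite X] [Finite V] (F : SimpleGraph X)
  (G : SimpleGraph V) (R : Set X) (Z : Set V) (v v' : V), v ≠ v' → v ∉ Z → v' ∉ Z →
  mu F G (E2 R Z v v') ≤ mu F G (E2 R Z v' v) + ((sd G v v').ncard : ℝ) * err X V 3

/-- JOB BOTH2: the part with both `v` and `v'`, second bound: a permutation that exchanges `v` and
`v'` and their neighbourhoods -/
def StBoth2 : Prop := ∀ (X V : Type) [Finite X] [Finite V] (F : SimpleGraph X)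
  (G : SimpleGraph V) (R : Set X) (v v' : V), v ≠ v' →
  ∀ (ι : Type) (I : Finset ι) (f f' : ι → V),
  Set.InjOn f I → Set.InjOn f' I → (∀ i ∈ I, ∀ j ∈ I, f i ≠ f' j) →
  (∀ c, (∃ i ∈ I, f i = c) ↔ G.Adj v c ∧ ¬ G.Adj v' c ∧ c ≠ v') →
  (∀ c, (∃ i ∈ I, f' i = c) ↔ G.Adj v' c ∧ ¬ G.Adj v c ∧ c ≠ v) →
  mu F G (E2 R ∅ v v') ≤ mu F G (E2 R ∅ v' v) +
    4 * (∑ i ∈ I, ((sd G (f i) (f' i)).ncard : ℝ)) * err X V 4

/-- JOB CHAIN: move the neighbours `f i` of `s` to `f' i` -/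
def StChain : Prop := ∀ (X V : Type) [Finite X] [Finite V] [Nonempty V] (F : SimpleGraph X)
  (G : SimpleGraph V) (s : V) (A : Finset V) (E : (X → V) → Prop),
  s ∈ A → (∀ φ, Function.Injective φ → E φ → ∀ a ∈ A, a ∈ Set.range φ) →
  ∀ (ι : Type) (I : Finset ι) (f f' : ι → V) (U : Set V),
  (∀ i ∈ I, f i ∉ U ∧ f' i ∉ U ∧ f i ∉ A ∧ f' i ∉ A ∧
    (∀ a ∈ A, a ≠ s → (G.Adj a (f i) ↔ G.Adj a (f' i))) ∧
    (∀ φ, E φ → ∀ τ : Equiv.Perm V, (∀ c, c ≠ f i → c ≠ f' i → τ c = c) → E (τ ∘ φ))) →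
  Set.InjOn f I → Set.InjOn f' I → (∀ i ∈ I, ∀ j ∈ I, f i ≠ f' j) →
  mu F (upd G s (U ∪ f '' I)) E ≤ mu F (upd G s (U ∪ f' '' I)) E +
      ∑ i ∈ I, ((sd G (f i) (f' i)).ncard : ℝ) * err X V (A.card + 2)

/-- JOB SPLIT -/
def StSplit : Prop := ∀ (X V : Type) [Finite X] [Finite V] [Nonempty V] (F : SimpleGraph X)
  (G : SimpleGraph V) (s : V) (E : (X → V) → Prop),
  (∀ P P' : Set V, P ⊆ P' → mu F (upd G s P) E ≤ mu F (upd G s P') E) ∧
  (∀ (P : Set V) (c : V), c ∉ P → c ≠ s → mu F (upd G s (insert c P)) E =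
    mu F (upd G s P) E + mu F (upd G s (insert c P)) (fun φ => E φ ∧ Uses F s c φ)) ∧
  ((∀ φ, E φ → s ∈ Set.range φ) → ∀ P P' : Set V, P ⊆ P' → mu F (upd G s P') E ≤
    mu F (upd G s P) E + ((P' \ P).ncard : ℝ) * err X V 2)

/-- JOB MOVE: the first level comparison.  The vertices of `nb v \ nb v'` (outside `Z`, `v'`) are
moved by `f` into `nb v' \ nb v`, and `u` is one more neighbour of `v'`. -/
def StMove : Prop := ∀ (X V : Type) [Finite X] [Finite V] (F : SimpleGraph X)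
  (G : SimpleGraph V) (R : Set X) (Z : Set V) (v v' : V), v ≠ v' → v ∉ Z → v' ∉ Z →
  ∀ (f : V → V) (u : V) (gain K : ℝ) (W : Set V),
  (∀ y, y ∈ W ↔ y ∈ nb G v ∧ y ∉ nb G v' ∧ y ≠ v' ∧ y ∉ Z) →
  (∀ y ∈ W, f y ∈ nb G v' ∧ f y ∉ nb G v ∧ f y ≠ v ∧ f y ∉ Z ∧ f y ≠ u ∧
    ((sd G y (f y)).ncard : ℝ) ≤ K) →
  Set.InjOn f W → u ∈ nb G v' → u ∉ nb G v → u ≠ v → u ∉ Z →
  gain ≤ mu F (upd G v (insert u ((nb G v ∩ nb G v') ∪ f '' W)))
      (fun φ => E1 R Z v v' φ ∧ Uses F v u φ) →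
  ((W.ncard : ℝ) * K + ((sd G v v').ncard : ℝ)) * err X V 3 < gain →
  D F G R Z v < D F G R Z v'

/-- JOB SL: the second level.  The neighbourhood of `z'` is contained in `U ∪ f I`, the
neighbourhood of `z` contains `U ∪ f' I` and, in the second part, also `c`. -/
def StSL : Prop := ∀ (X V : Type) [Finite X] [Finite V] [Nonempty V] (F : SimpleGraph X)
  (G : SimpleGraph V) (R : Set X) (v v' z z' : V), v ≠ v' → z ≠ z' → v ≠ z → v ≠ z' → v' ≠ z →
  v' ≠ z' → ∀ P : Set V, z ∉ P → z' ∉ P →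
  ∀ (ι : Type) (I : Finset ι) (f f' : ι → V) (U : Set V),
  (∀ i ∈ I, f i ∉ U ∧ f' i ∉ U ∧ f i ≠ v ∧ f' i ≠ v ∧ f i ≠ v' ∧ f' i ≠ v' ∧
    f i ≠ z ∧ f' i ≠ z ∧ f i ≠ z' ∧ f' i ≠ z' ∧ (f i ∈ P ↔ f' i ∈ P)) →
  Set.InjOn f I → Set.InjOn f' I → (∀ i ∈ I, ∀ j ∈ I, f i ≠ f' j) →
  (∀ c, c ∈ nb G z' → c ≠ v → c ≠ v' → c ≠ z → c ∈ U ∪ f '' I) →
  (∀ c, c ∈ U ∪ f' '' I → c ≠ v → c ≠ v' → c ≠ z → c ≠ z' → c ∈ nb G z) →
  mu F (upd G v (insert z' P)) (E1 R ∅ v v') ≤ mu F (upd G v (insert z P)) (E1 R ∅ v v') +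
    (((sd G z z' : Set V).ncard : ℝ) + ∑ i ∈ I, ((sd G (f i) (f' i)).ncard : ℝ)) * err X V 4 ∧
  ∀ c, c ≠ v → c ≠ v' → c ≠ z → c ≠ z' → c ∈ nb G z → c ∉ U ∪ f' '' I →
  mu F (upd G v (insert z' P)) (E1 R ∅ v v') +
    mu F (upd (upd G v (insert z P)) z (insert c (insert v (U ∪ f' '' I))))
      (fun φ => (E1 R ∅ v v' φ ∧ z' ∉ Set.range φ ∧ Uses F v z φ) ∧ Uses F z c φ) ≤
  mu F (upd G v (insert z P)) (E1 R ∅ v v') +
    (((sd G z z' : Set V).ncard : ℝ) + ∑ i ∈ I, ((sd G (f i) (f' i)).ncard : ℝ)) * err X V 4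

/-- JOB EMB: many homomorphisms with prescribed values on `Y` -/
def StEmb : Prop := ∀ (X V : Type) [Finite X] [Finite V] (F : SimpleGraph X)
  (G : SimpleGraph V) (E : (X → V) → Prop) (Y : Finset X) (η : X → V) (Q : X → Set V) (M : ℕ),
  Set.InjOn η Y → (∀ x, x ∉ Y → M ≤ (Q x).ncard) →
  (∀ x y, x ∉ Y → y ∉ Y → x ≠ y → Disjoint (Q x) (Q y)) →
  (∀ x y, x ∉ Y → y ∈ Y → η y ∉ Q x) →
  (∀ x y, F.Adj x y → x ∈ Y → y ∈ Y → G.Adj (η x) (η y)) →
  (∀ x y, F.Adj x y → x ∈ Y → y ∉ Y → ∀ c ∈ Q y, G.Adj (η x) c) →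
  (∀ x y, F.Adj x y → x ∉ Y → y ∉ Y → ∀ c ∈ Q x, ∀ d ∈ Q y, G.Adj c d) →
  (∀ φ : X → V, (∀ y ∈ Y, φ y = η y) → (∀ x, x ∉ Y → φ x ∈ Q x) → E φ) →
  M ^ (Nat.card X - Y.card) ≤ (homs F G E).ncard

/-- the number of the subgraphs that are isomorphic to `F` by an isomorphism that maps an element of
`R` to `v` -/
noncomputable def rdeg {X V : Type} (F : SimpleGraph X) (G : SimpleGraph V) (R : Set X) (v : V) :
    ℕ :=
  {H : G.Subgraph | ∃ e : F ≃g H.coe, ∃ x ∈ R, ((e x : H.verts) : V) = v}.ncard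

/-- JOB AUT: the degrees and the number of the injective homomorphisms -/
def StAut : Prop := ∀ (X V : Type) [Finite X] [Finite V] (F : SimpleGraph X)
  (G : SimpleGraph V),
  (∃ c : ℕ, 0 < c ∧ ∀ v : V, (homs F G (At Set.univ v)).ncard = c * rdeg F G Set.univ v) ∧
  ∀ r : X, ∃ c : ℕ, 0 < c ∧ ∀ v : V, (homs F G (At {r} v)).ncard = c * rdeg F G {r} v

end Pool.Agent.K7.H12.UI
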